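import Pool.Agent.Lib.MP_1dc4d0_coE.Edm

/-!
# Two perfect matchings of a bridgeless cubic graph with a sparse intersection
-/

set_option autoImplicit false

namespace Pool.Agent.MP_1dc4d0_coE

open Finset

variable {V E : Type*} [Fintype V] [Fintype E] [DecidableEq E] [DecidableEq V]

/-- A bridgeless cubic multigraph without loops. -/
structure Cubic (s t : E → V) : Prop where
  loopless : ∀ e, s e ≠ t e
  deg : ∀ v, (cut s t {v}).card = 3
  bridge : ∀ X : Finset V, (cut s t X).card ≠ 1

theorem Cubic.odd_iff {s t : E → V} (h : Cubic s t) (X : Finset V) :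
    Odd (cut s t X).card ↔ Odd X.card := by
  have h1 := cut_parity s t univ X
  simp only [Finset.univ_inter] at h1
  rw [Finset.sum_congr rfl (fun v _ => h.deg v), Finset.sum_const, smul_eq_mul] at h1
  have h2 := odd_card_of_zmod h1
  rw [← h2, Nat.odd_mul]
  constructor
  · rintro ⟨a, _⟩; exact a
  · intro a; exact ⟨a, by decide⟩

theorem Cubic.three_le {s t : E → V} (h : Cubic s t) {X : Finset V} (hX : Odd X.card) :
    3 ≤ (cut s t X).card := by
  have h1 := (h.odd_iff X).2 hX
  have h2 := h.bridge X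
  obtain ⟨k, hk⟩ := h1
  omega

/-- The cost used to force that a family of cuts is met exactly once. -/
theorem cost_swap (s t : E → V) (T : Finset (Finset V)) (g : E → ℝ) (A : Finset E) :
    ∑ e ∈ A, ((T.filter (fun X => e ∈ cut s t X)).card : ℝ) * g e
      = ∑ X ∈ T, ∑ e ∈ A ∩ cut s t X, g e := by
  have h1 : ∀ e, ((T.filter (fun X => e ∈ cut s t X)).card : ℝ) * g e
      = ∑ X ∈ T, (if e ∈ cut s t X then g e else 0) := by
    intro e
    rw [← Finset.sum_filter, Finset.sum_const, nsmul_eq_mul]
  simp_rw [h1]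
  rw [Finset.sum_comm]
  apply Finset.sum_congr rfl
  intro X _
  rw [← Finset.sum_filter]
  apply Finset.sum_congr _ (fun _ _ => rfl)
  ext e; simp

/-- Edmonds' theorem with a family of tight cuts: the matching meets each of them once. -/
theorem edmonds_tight (s t : E → V) (w : E → ℝ) (hw : Frac s t w) (y : E → ℝ)
    (hy : ∀ e, 0 ≤ y e) :
    ∃ M : Finset E, PM s t M ∧ ∑ e ∈ M, y e ≤ ∑ e, y e * w e ∧
      ∀ X : Finset V, Odd X.card → ∑ e ∈ cut s t X, w e = 1 → (M ∩ cut s t X).card = 1 := by
  classical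
  set T : Finset (Finset V) := univ.filter (fun X => Odd X.card ∧ ∑ e ∈ cut s t X, w e = 1)
    with hT
  set B : ℝ := ∑ e, y e * w e + 1 with hB
  have hyw : 0 ≤ ∑ e, y e * w e :=
    Finset.sum_nonneg (fun e _ => mul_nonneg (hy e) (hw.nonneg e))
  have hBpos : 0 < B := by linarith
  obtain ⟨M, _, hM, hc⟩ := edmonds s t w hw
    (fun e => y e + B * ((T.filter (fun X => e ∈ cut s t X)).card : ℝ))
  have h1 : ∑ e ∈ M, (y e + B * ((T.filter (fun X => e ∈ cut s t X)).card : ℝ))
      = ∑ e ∈ M, y e + B * ∑ X ∈ T, ((M ∩ cut s t X).card : ℝ) := by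
    rw [Finset.sum_add_distrib, ← Finset.mul_sum]
    congr 2
    have := cost_swap s t T (fun _ => (1 : ℝ)) M
    simpa using this
  have h2 : ∑ e, (y e + B * ((T.filter (fun X => e ∈ cut s t X)).card : ℝ)) * w e
      = ∑ e, y e * w e + B * (T.card : ℝ) := by
    have h3 := cost_swap s t T w univ
    have h4 : ∑ X ∈ T, ∑ e ∈ univ ∩ cut s t X, w e = (T.card : ℝ) := by
      have : ∀ X ∈ T, ∑ e ∈ univ ∩ cut s t X, w e = 1 := by
        intro X hX
        rw [hT, Finset.mem_filter] at hX
        rw [Finset.univ_inter]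
        exact hX.2.2
      rw [Finset.sum_congr rfl this]
      simp
    rw [h4] at h3
    rw [← h3, Finset.mul_sum, ← Finset.sum_add_distrib]
    apply Finset.sum_congr rfl
    intro e _
    ring
  rw [h1, h2] at hc
  have hge : ∀ X ∈ T, 1 ≤ (M ∩ cut s t X).card := by
    intro X hX
    rw [hT, Finset.mem_filter] at hX
    exact (hM.odd_cut hX.2.1).pos
  have hyM : 0 ≤ ∑ e ∈ M, y e := Finset.sum_nonneg (fun e _ => hy e)
  have hall : ∀ X ∈ T, (M ∩ cut s t X).card = 1 := by
    by_contra hcon
    push Not at hcon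
    obtain ⟨X, hX, hne⟩ := hcon
    have hlt : ∑ X ∈ T, 1 < ∑ X ∈ T, (M ∩ cut s t X).card := by
      apply Finset.sum_lt_sum hge
      refine ⟨X, hX, ?_⟩
      have := hge X hX
      omega
    have hlt' : T.card + 1 ≤ ∑ X ∈ T, (M ∩ cut s t X).card := by
      simpa using hlt
    have hltR : (T.card : ℝ) + 1 ≤ ∑ X ∈ T, ((M ∩ cut s t X).card : ℝ) := by
      exact_mod_cast hlt'
    nlinarith
  refine ⟨M, hM, ?_, ?_⟩
  · have : ∑ X ∈ T, ((M ∩ cut s t X).card : ℝ) = (T.card : ℝ) := by
      rw [Finset.sum_congr rfl (fun X hX => by rw [hall X hX])]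
      simp
    rw [this] at hc
    linarith
  · intro X h1 h2
    exact hall X (by rw [hT, Finset.mem_filter]; exact ⟨Finset.mem_univ _, h1, h2⟩)

theorem sum_cut_split (s t : E → V) (M : Finset E) (a b : ℝ) (X : Finset V) :
    ∑ e ∈ cut s t X, (if e ∈ M then a else b)
      = a * ((M ∩ cut s t X).card : ℝ) + b * (((cut s t X).card : ℝ) - (M ∩ cut s t X).card) := by
  rw [Finset.sum_ite, Finset.sum_const, Finset.sum_const, nsmul_eq_mul, nsmul_eq_mul]
  have h1 : (cut s t X).filter (fun e => e ∈ M) = M ∩ cut s t X := by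
    ext e; simp [and_comm]
  have h2 : ((cut s t X).filter (fun e => e ∉ M)).card + (M ∩ cut s t X).card
      = (cut s t X).card := by
    rw [← h1, add_comm]
    exact Finset.card_filter_add_card_filter_not (s := cut s t X) (fun e => e ∈ M)
  rw [h1]
  have h3 : (((cut s t X).filter (fun e => e ∉ M)).card : ℝ)
      = ((cut s t X).card : ℝ) - (M ∩ cut s t X).card := by
    rw [← h2]; push_cast; ring
  rw [h3]
  ring

/-- **Main theorem, weighted form.** If `M₁` is a perfect matching containing no odd cut with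
fewer than `c` edges and `y ≥ 0`, there is a perfect matching `M₂` with
`c * y(M₁ ∩ M₂) ≤ y(M₁)` such that `M₁ ∩ M₂` contains no odd cut with at most `c` edges. -/
theorem weighted {s t : E → V} (h : Cubic s t) (M₁ : Finset E) (hM₁ : PM s t M₁) (c : ℕ)
    (hc : ∀ X : Finset V, Odd X.card → cut s t X ⊆ M₁ → c ≤ (cut s t X).card)
    (y : E → ℝ) (hy : ∀ e, 0 ≤ y e) :
    ∃ M₂ : Finset E, PM s t M₂ ∧ (c : ℝ) * ∑ e ∈ M₁ ∩ M₂, y e ≤ ∑ e ∈ M₁, y e ∧
      ∀ X : Finset V, Odd X.card → cut s t X ⊆ M₁ ∩ M₂ → c < (cut s t X).card := by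
  classical
  rcases Nat.eq_zero_or_pos c with hc0 | hcpos
  · subst hc0
    refine ⟨M₁, hM₁, ?_, ?_⟩
    · simp only [Nat.cast_zero, zero_mul]
      exact Finset.sum_nonneg (fun e _ => hy e)
    · intro X hX _
      have := h.three_le hX
      omega
  have hcR : (1 : ℝ) ≤ (c : ℝ) := by exact_mod_cast hcpos
  have hcR0 : (0 : ℝ) < (c : ℝ) := by linarith
  have hinv : (1 : ℝ) / c ≤ 1 := by
    rw [div_le_one hcR0]; exact hcR
  have hinv0 : (0 : ℝ) < 1 / c := by positivity
  set w : E → ℝ := fun e => if e ∈ M₁ then 1 / (c : ℝ) else (1 - 1 / (c : ℝ)) / 2 with hw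
  have hfrac : Frac s t w := by
    refine ⟨?_, ?_, ?_, ?_⟩
    · intro e
      simp only [hw]
      split_ifs
      · exact hinv0.le
      · apply div_nonneg _ (by norm_num)
        linarith
    · intro e he
      exact absurd he (h.loopless e)
    · intro v
      rw [hw, sum_cut_split, hM₁ v, h.deg v]
      push_cast
      ring
    · intro X hX
      rw [hw, sum_cut_split]
      set m := (cut s t X).card with hm
      set k := (M₁ ∩ cut s t X).card with hk
      have hkm : k ≤ m := Finset.card_le_card Finset.inter_subset_right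
      have hk1 : 1 ≤ k := (hM₁.odd_cut hX).pos
      rcases hkm.eq_or_lt with heq | hlt
      · have hsub : cut s t X ⊆ M₁ := by
          have : M₁ ∩ cut s t X = cut s t X :=
            Finset.eq_of_subset_of_card_le Finset.inter_subset_right (by rw [← hk, ← hm, heq])
          rw [← this]
          exact Finset.inter_subset_left
        have hcm := hc X hX hsub
        rw [← heq]
        have : (c : ℝ) ≤ (k : ℝ) := by rw [heq]; exact_mod_cast hcm
        rw [sub_self, mul_zero, add_zero, one_div, inv_mul_eq_div, le_div_iff₀ hcR0]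
        linarith
      · have hm2 : Odd m := (h.odd_iff X).2 hX
        have hk2 : Odd k := hM₁.odd_cut hX
        have h2 : k + 2 ≤ m := by
          obtain ⟨a, ha⟩ := hm2
          obtain ⟨b, hb⟩ := hk2
          omega
        have h2R : (2 : ℝ) ≤ (m : ℝ) - k := by
          have : ((k + 2 : ℕ) : ℝ) ≤ (m : ℝ) := by exact_mod_cast h2
          push_cast at this
          linarith
        have hk1R : (1 : ℝ) ≤ (k : ℝ) := by exact_mod_cast hk1
        have e1 : (1 / (c : ℝ)) * 1 ≤ (1 / (c : ℝ)) * k :=
          mul_le_mul_of_nonneg_left hk1R hinv0.le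
        have e2 : ((1 - 1 / (c : ℝ)) / 2) * 2 ≤ ((1 - 1 / (c : ℝ)) / 2) * ((m : ℝ) - k) :=
          mul_le_mul_of_nonneg_left h2R (by linarith)
        linarith
  obtain ⟨M₂, hM₂, hcost, htight⟩ := edmonds_tight s t w hfrac
    (fun e => if e ∈ M₁ then y e else 0)
    (fun e => by split_ifs; exact hy e; exact le_refl _)
  refine ⟨M₂, hM₂, ?_, ?_⟩
  · have h1 : ∑ e ∈ M₂, (if e ∈ M₁ then y e else 0) = ∑ e ∈ M₁ ∩ M₂, y e := by
      rw [← Finset.sum_filter]
      apply Finset.sum_congr _ (fun _ _ => rfl)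
      ext e; simp [and_comm]
    have h2 : ∑ e, (if e ∈ M₁ then y e else 0) * w e = (1 / (c : ℝ)) * ∑ e ∈ M₁, y e := by
      rw [Finset.mul_sum, ← Finset.sum_subset (Finset.subset_univ M₁)]
      · apply Finset.sum_congr rfl
        intro e he
        simp only [hw, if_pos he]
        ring
      · intro e _ he
        rw [if_neg he, zero_mul]
    rw [h1, h2, one_div, inv_mul_eq_div, le_div_iff₀ hcR0] at hcost
    linarith
  · intro X hX hsub
    have hs1 : cut s t X ⊆ M₁ := hsub.trans Finset.inter_subset_left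
    have hs2 : cut s t X ⊆ M₂ := hsub.trans Finset.inter_subset_right
    have hle := hc X hX hs1
    rcases hle.lt_or_eq with hlt | heq
    · exact hlt
    · exfalso
      have hM1c : M₁ ∩ cut s t X = cut s t X := Finset.inter_eq_right.2 hs1
      have htot : ∑ e ∈ cut s t X, w e = 1 := by
        rw [hw, sum_cut_split, hM1c, sub_self, mul_zero, add_zero, ← heq]
        rw [one_div, inv_mul_cancel₀ hcR0.ne']
      have := htight X hX htot
      rw [Finset.inter_eq_right.2 hs2] at this
      exact h.bridge X this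

/-- There is a perfect matching containing no odd cut with fewer than five edges. -/
theorem exists_first {s t : E → V} (h : Cubic s t) :
    ∃ M₁ : Finset E, PM s t M₁ ∧
      ∀ X : Finset V, Odd X.card → cut s t X ⊆ M₁ → 5 ≤ (cut s t X).card := by
  classical
  have hfrac : Frac s t (fun _ => (1 / 3 : ℝ)) := by
    refine ⟨fun _ => by norm_num, fun e he => absurd he (h.loopless e), ?_, ?_⟩
    · intro v
      rw [Finset.sum_const, h.deg v]
      norm_num
    · intro X hX
      rw [Finset.sum_const, nsmul_eq_mul]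
      have : (3 : ℝ) ≤ ((cut s t X).card : ℝ) := by exact_mod_cast h.three_le hX
      linarith
  obtain ⟨M, hM, _, ht⟩ := edmonds_tight s t _ hfrac (fun _ => 0) (fun _ => le_refl _)
  refine ⟨M, hM, ?_⟩
  intro X hX hsub
  have h3 := h.three_le hX
  have hodd := (h.odd_iff X).2 hX
  by_contra hlt
  push Not at hlt
  have heq : (cut s t X).card = 3 := by
    obtain ⟨k, hk⟩ := hodd
    omega
  have := ht X hX (by rw [Finset.sum_const, heq]; norm_num)
  rw [Finset.inter_eq_right.2 hsub, heq] at this
  omega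

theorem two_mul_card_pm {s t : E → V} (h : Cubic s t) {M : Finset E} (hM : PM s t M) :
    2 * M.card = Fintype.card V := by
  classical
  have h1 : ∑ v : V, (M ∩ cut s t {v}).card = Fintype.card V := by
    rw [Finset.sum_congr rfl (fun v _ => hM v)]
    simp
  have h2 : ∑ v : V, (M ∩ cut s t {v}).card = ∑ e ∈ M, 2 := by
    have e1 : ∀ v : V, (M ∩ cut s t {v}).card
        = ∑ e ∈ M, if (¬ (s e = v ↔ t e = v)) then 1 else 0 := by
      intro v
      rw [← Finset.sum_filter, Finset.sum_const, smul_eq_mul, mul_one]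
      apply congrArg
      ext e
      simp [mem_cut_single]
    simp_rw [e1]
    rw [Finset.sum_comm]
    apply Finset.sum_congr rfl
    intro e _
    have hst := h.loopless e
    have : ∀ v : V, (if (¬ (s e = v ↔ t e = v)) then 1 else 0)
        = (if s e = v then 1 else 0) + (if t e = v then 1 else 0) := by
      intro v
      by_cases h1 : s e = v
      · have h2 : t e ≠ v := fun h => hst (h1.trans h.symm)
        simp [h1, h2]
      · by_cases h2 : t e = v
        · simp [h1, h2]
        · simp [h1, h2]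
    rw [Finset.sum_congr rfl (fun v _ => this v), Finset.sum_add_distrib]
    simp
  rw [← h1, h2, Finset.sum_const, smul_eq_mul, mul_comm]

/-- Every bridgeless cubic graph with `n` vertices has two perfect matchings whose intersection
has at most `n / 10` edges and contains no odd cut with at most five edges. -/
theorem sparse {s t : E → V} (h : Cubic s t) :
    ∃ M₁ M₂ : Finset E, PM s t M₁ ∧ PM s t M₂ ∧ 10 * (M₁ ∩ M₂).card ≤ Fintype.card V ∧
      ∀ X : Finset V, Odd X.card → cut s t X ⊆ M₁ ∩ M₂ → 7 ≤ (cut s t X).card := by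
  obtain ⟨M₁, hM₁, hc⟩ := exists_first h
  obtain ⟨M₂, hM₂, hw, hX⟩ := weighted h M₁ hM₁ 5 hc (fun _ => 1) (fun _ => zero_le_one)
  refine ⟨M₁, M₂, hM₁, hM₂, ?_, ?_⟩
  · simp only [Finset.sum_const, nsmul_eq_mul, mul_one] at hw
    have h1 : 5 * (M₁ ∩ M₂).card ≤ M₁.card := by exact_mod_cast hw
    have h2 := two_mul_card_pm h hM₁
    omega
  · intro X hodd hsub
    have h1 := hX X hodd hsub
    have h2 := (h.odd_iff X).2 hodd
    obtain ⟨k, hk⟩ := h2
    omega

end Pool.Agent.MP_1dc4d0_coE
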