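import Pool.Agent.Lib.MP_1dc4d0_coE.Defs
import Pool.Agent.Lib.MP_1dc4d0_coE.App

/-!
# Translation between the two descriptions of a multigraph
-/

set_option autoImplicit false

namespace Pool.Agent.MP_1dc4d0_coE

open Finset

variable {V E : Type} [Fintype V] [Fintype E]

/-- First end. -/
noncomputable def fs (ends : E → Sym2 V) (e : E) : V := (Quot.out (ends e)).1

/-- Second end. -/
noncomputable def sn (ends : E → Sym2 V) (e : E) : V := (Quot.out (ends e)).2

theorem ends_eq (ends : E → Sym2 V) (e : E) : ends e = s(fs ends e, sn ends e) :=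
  (Quot.out_eq (ends e)).symm

theorem mem_ends (ends : E → Sym2 V) (e : E) (v : V) :
    v ∈ ends e ↔ v = fs ends e ∨ v = sn ends e := by
  rw [ends_eq ends e, Sym2.mem_iff]

theorem edgeCut_eq [DecidableEq V] [DecidableEq E] (ends : E → Sym2 V) (X : Finset V) :
    edgeCut ends (X : Set V) = (cut (fs ends) (sn ends) X : Set E) := by
  ext e
  simp only [edgeCut, Set.mem_setOf_eq, Finset.mem_coe, mem_cut, mem_ends]
  constructor
  · rintro ⟨x, y, hx, hy, hxX, hyX⟩ hiff
    rcases hx with rfl | rfl <;> rcases hy with rfl | rfl <;> tauto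
  · intro h
    by_cases h1 : fs ends e ∈ X
    · have h2 : sn ends e ∉ X := by tauto
      exact ⟨_, _, Or.inl rfl, Or.inr rfl, h1, h2⟩
    · have h2 : sn ends e ∈ X := by tauto
      exact ⟨_, _, Or.inr rfl, Or.inl rfl, h2, h1⟩

theorem fs_ne_sn {ends : E → Sym2 V} (h : BridgelessCubic ends) (e : E) :
    fs ends e ≠ sn ends e := by
  obtain ⟨x, y, hxy, hx, hy⟩ := h.loopless e
  rw [mem_ends] at hx hy
  intro heq
  rw [← heq] at hx hy
  apply hxy
  rcases hx with rfl | rfl <;> rcases hy with rfl | rfl <;> rfl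

theorem mem_ends_iff_cut [DecidableEq V] [DecidableEq E] {ends : E → Sym2 V}
    (h : BridgelessCubic ends) (e : E) (v : V) :
    v ∈ ends e ↔ e ∈ cut (fs ends) (sn ends) {v} := by
  rw [mem_ends, mem_cut_single]
  have hne := fs_ne_sn h e
  constructor
  · rintro (rfl | rfl) hiff
    · exact hne (hiff.1 rfl).symm
    · exact hne (hiff.2 rfl)
  · intro hn
    by_contra hcon
    push Not at hcon
    apply hn
    constructor
    · intro h1; exact absurd h1.symm hcon.1
    · intro h1; exact absurd h1.symm hcon.2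

theorem toCubic [DecidableEq V] [DecidableEq E] {ends : E → Sym2 V} (h : BridgelessCubic ends) :
    Cubic (fs ends) (sn ends) where
  loopless := fs_ne_sn h
  deg := by
    intro v
    have h1 := h.cubic v
    have h2 : {e : E | v ∈ ends e} = (cut (fs ends) (sn ends) {v} : Set E) := by
      ext e
      exact mem_ends_iff_cut h e v
    rw [h2, Set.ncard_coe_finset] at h1
    exact h1
  bridge := by
    intro X hX
    obtain ⟨b, hb⟩ := Finset.card_eq_one.1 hX
    apply h.bridgeless (X : Set V) b
    rw [edgeCut_eq, hb, Finset.coe_singleton]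

theorem isPM_iff [DecidableEq V] [DecidableEq E] {ends : E → Sym2 V} (h : BridgelessCubic ends)
    (M : Finset E) : IsPM ends (M : Set E) ↔ PM (fs ends) (sn ends) M := by
  unfold IsPM PM
  apply forall_congr'
  intro v
  rw [Finset.card_eq_one]
  constructor
  · rintro ⟨e, ⟨he1, he2⟩, he3⟩
    refine ⟨e, ?_⟩
    ext f
    rw [Finset.mem_inter, Finset.mem_singleton, ← mem_ends_iff_cut h]
    constructor
    · rintro ⟨h1, h2⟩
      exact he3 f ⟨h1, h2⟩
    · rintro rfl
      exact ⟨he1, he2⟩
  · rintro ⟨e, he⟩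
    have hm : ∀ f, (f ∈ M ∧ v ∈ ends f) ↔ f = e := by
      intro f
      rw [mem_ends_iff_cut h, ← Finset.mem_inter, he, Finset.mem_singleton]
    refine ⟨e, (hm e).2 rfl, ?_⟩
    intro f hf
    exact (hm f).1 hf

end Pool.Agent.MP_1dc4d0_coE
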