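import Pool.Agent.Lib.MP_1dc4d0_coE.Cut

/-!
# Contracting an odd set that is tight for a fractional perfect matching
-/

set_option autoImplicit false

namespace Pool.Agent.MP_1dc4d0_coE

open Finset

variable {V E : Type*} [Fintype V] [Fintype E] [DecidableEq E] [DecidableEq V]

/-- The vertex set after contracting `X` to one point (`none`). -/
abbrev CV (X : Finset V) : Type _ := Option {v : V // v ∉ X}

/-- The contraction map. -/
def proj (X : Finset V) (v : V) : CV X := if h : v ∈ X then none else some ⟨v, h⟩

theorem proj_eq_none {X : Finset V} {v : V} : proj X v = none ↔ v ∈ X := by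
  unfold proj
  split_ifs with h
  · simp [h]
  · simp [h]

theorem proj_eq_some {X : Finset V} {v : V} {u : {v : V // v ∉ X}} :
    proj X v = some u ↔ v = u.1 := by
  unfold proj
  split_ifs with h
  · constructor
    · intro h'; cases h'
    · intro h'; rw [h'] at h; exact absurd h u.2
  · constructor
    · intro h'
      have := Option.some.inj h'
      rw [← this]
    · intro h'
      congr 1
      exact Subtype.ext h'

/-- Preimage of a set of contracted vertices. -/
def pre (X : Finset V) (Y : Finset (CV X)) : Finset V := univ.filter (fun v => proj X v ∈ Y)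

theorem mem_pre {X : Finset V} {Y : Finset (CV X)} {v : V} : v ∈ pre X Y ↔ proj X v ∈ Y := by
  simp [pre]

theorem cut_proj (s t : E → V) (X : Finset V) (Y : Finset (CV X)) :
    cut (fun e => proj X (s e)) (fun e => proj X (t e)) Y = cut s t (pre X Y) := by
  ext e
  simp only [mem_cut, mem_pre]

theorem pre_none (X : Finset V) : pre X ({none} : Finset (CV X)) = X := by
  ext v
  simp only [mem_pre, Finset.mem_singleton]
  exact proj_eq_none

theorem pre_some (X : Finset V) (u : {v : V // v ∉ X}) :
    pre X ({some u} : Finset (CV X)) = {u.1} := by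
  ext v
  simp only [mem_pre, Finset.mem_singleton]
  exact proj_eq_some

theorem odd_pre {X : Finset V} (hX : Odd X.card) {Y : Finset (CV X)} (hY : Odd Y.card) :
    Odd (pre X Y).card := by
  classical
  have hfib : (pre X Y).card = ∑ y ∈ Y, ((pre X Y).filter (fun v => proj X v = y)).card := by
    apply Finset.card_eq_sum_card_fiberwise
    intro v hv
    exact mem_pre.1 hv
  have hone : ∀ y ∈ Y, ((((pre X Y).filter (fun v => proj X v = y)).card : ℕ) : ZMod 2) = 1 := by
    intro y hy
    have : (pre X Y).filter (fun v => proj X v = y) = pre X {y} := by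
      ext v
      simp only [Finset.mem_filter, mem_pre, Finset.mem_singleton]
      constructor
      · rintro ⟨_, h⟩; exact h
      · intro h; exact ⟨by rw [h]; exact hy, h⟩
    rw [this]
    cases y with
    | none =>
      rw [pre_none]
      exact (ZMod.natCast_eq_one_iff_odd).2 hX
    | some u =>
      rw [pre_some]
      simp
  rw [← ZMod.natCast_eq_one_iff_odd, hfib, Nat.cast_sum, Finset.sum_congr rfl hone]
  simp only [Finset.sum_const, nsmul_eq_mul, mul_one]
  exact (ZMod.natCast_eq_one_iff_odd).2 hY

/-- The weights after contraction: edges inside `X` get weight zero. -/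
noncomputable def cw (s t : E → V) (X : Finset V) (w : E → ℝ) (e : E) : ℝ :=
  if s e ∈ X ∧ t e ∈ X then 0 else w e

theorem cw_nonneg {s t : E → V} {X : Finset V} {w : E → ℝ} (hw : ∀ e, 0 ≤ w e) (e : E) :
    0 ≤ cw s t X w e := by
  unfold cw
  split_ifs
  · exact le_refl _
  · exact hw e

theorem sum_cw_pre (s t : E → V) (X : Finset V) (w : E → ℝ) (Y : Finset (CV X)) :
    ∑ e ∈ cut s t (pre X Y), cw s t X w e = ∑ e ∈ cut s t (pre X Y), w e := by
  apply Finset.sum_congr rfl
  intro e he
  unfold cw
  rw [if_neg]
  rintro ⟨h1, h2⟩
  rw [mem_cut, mem_pre, mem_pre, proj_eq_none.2 h1, proj_eq_none.2 h2] at he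
  exact he Iff.rfl

theorem Frac.contract {s t : E → V} {w : E → ℝ} (hw : Frac s t w) {X : Finset V}
    (hX : Odd X.card) (ht : ∑ e ∈ cut s t X, w e = 1) :
    Frac (fun e => proj X (s e)) (fun e => proj X (t e)) (cw s t X w) where
  nonneg := cw_nonneg hw.nonneg
  loop := by
    intro e he
    unfold cw
    split_ifs with h
    · rfl
    · by_cases h1 : s e ∈ X
      · exfalso
        apply h
        refine ⟨h1, ?_⟩
        rw [← proj_eq_none, ← he, proj_eq_none]
        exact h1
      · have h2 : proj X (s e) = some ⟨s e, h1⟩ := proj_eq_some.2 rfl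
        have h3 : proj X (t e) = some ⟨s e, h1⟩ := by
          rw [← h2]; exact he.symm
        exact hw.loop e (proj_eq_some.1 h3).symm
  deg := by
    intro y
    rw [cut_proj, sum_cw_pre]
    cases y with
    | none => rw [pre_none]; exact ht
    | some u => rw [pre_some]; exact hw.deg u.1
  odd := by
    intro Y hY
    rw [cut_proj, sum_cw_pre]
    exact hw.odd _ (odd_pre hX hY)

theorem card_CV (X : Finset V) : Fintype.card (CV X) = Fintype.card V - X.card + 1 := by
  rw [Fintype.card_option]
  congr 1
  rw [Fintype.card_subtype_compl]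
  simp

theorem card_CV_lt {X : Finset V} (hX : 2 ≤ X.card) : Fintype.card (CV X) < Fintype.card V := by
  rw [card_CV]
  have : X.card ≤ Fintype.card V := Finset.card_le_univ X
  omega

/-- Perfect matchings of the contraction: one edge leaves `X`, one edge at every vertex
outside `X`. -/
theorem pm_contract_iff {s t : E → V} {X : Finset V} {M : Finset E} :
    PM (fun e => proj X (s e)) (fun e => proj X (t e)) M ↔
      (M ∩ cut s t X).card = 1 ∧ ∀ v, v ∉ X → (M ∩ cut s t {v}).card = 1 := by
  unfold PM
  constructor
  · intro h
    refine ⟨?_, ?_⟩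
    · have := h none
      rwa [cut_proj, pre_none] at this
    · intro v hv
      have := h (some ⟨v, hv⟩)
      rwa [cut_proj, pre_some] at this
  · rintro ⟨h1, h2⟩ y
    rw [cut_proj]
    cases y with
    | none => rw [pre_none]; exact h1
    | some u => rw [pre_some]; exact h2 u.1 u.2

end Pool.Agent.MP_1dc4d0_coE
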