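import Mathlib

/-!
# Edge cuts of a finite multigraph and fractional perfect matchings

The multigraph has vertex type `V`, edge type `E` and end maps `s t : E → V` (loops allowed).
-/

set_option autoImplicit false

namespace Pool.Agent.MP_1dc4d0_coE

open Finset

variable {V E : Type*} [Fintype E] [DecidableEq E] [DecidableEq V]

/-- The edges with exactly one end in `X`. -/
def cut (s t : E → V) (X : Finset V) : Finset E :=
  univ.filter (fun e => ¬ (s e ∈ X ↔ t e ∈ X))

theorem mem_cut {s t : E → V} {X : Finset V} {e : E} :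
    e ∈ cut s t X ↔ ¬ (s e ∈ X ↔ t e ∈ X) := by
  simp [cut]

theorem mem_cut_single {s t : E → V} {v : V} {e : E} :
    e ∈ cut s t {v} ↔ ¬ (s e = v ↔ t e = v) := by
  simp [cut]

/-- A vector in the perfect matching polytope (in Edmonds' description). -/
structure Frac [Fintype V] (s t : E → V) (w : E → ℝ) : Prop where
  nonneg : ∀ e, 0 ≤ w e
  loop : ∀ e, s e = t e → w e = 0
  deg : ∀ v, ∑ e ∈ cut s t {v}, w e = 1
  odd : ∀ X : Finset V, Odd X.card → 1 ≤ ∑ e ∈ cut s t X, w e

/-- `M` is a perfect matching: every vertex is an end of exactly one non-loop edge of `M`. -/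
def PM (s t : E → V) (M : Finset E) : Prop :=
  ∀ v, (M ∩ cut s t {v}).card = 1

/-- Parity of cuts: the number of edges of `A` leaving `X` has the parity of the sum over
`X` of the degrees in `A`. -/
theorem cut_parity (s t : E → V) (A : Finset E) (X : Finset V) :
    ((∑ v ∈ X, (A ∩ cut s t {v}).card : ℕ) : ZMod 2) = ((A ∩ cut s t X).card : ZMod 2) := by
  classical
  have h1 : ∀ Y : Finset V, ((A ∩ cut s t Y).card : ZMod 2)
      = ∑ e ∈ A, if (¬ (s e ∈ Y ↔ t e ∈ Y)) then (1 : ZMod 2) else 0 := by
    intro Y
    rw [← Finset.sum_filter, Finset.sum_const, nsmul_eq_mul, mul_one]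
    congr 1
    apply congrArg
    ext e
    simp [mem_cut]
  rw [h1, Nat.cast_sum]
  simp_rw [h1]
  rw [Finset.sum_comm]
  apply Finset.sum_congr rfl
  intro e _
  by_cases hst : s e = t e
  · simp [hst]
  · have : ∀ v ∈ X, (if (¬ (s e ∈ ({v} : Finset V) ↔ t e ∈ ({v} : Finset V)))
        then (1 : ZMod 2) else 0)
        = (if s e = v then (1 : ZMod 2) else 0) + (if t e = v then (1 : ZMod 2) else 0) := by
      intro v _
      simp only [Finset.mem_singleton]
      by_cases h1 : s e = v
      · have h2 : t e ≠ v := fun h => hst (h1.trans h.symm)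
        simp [h1, h2]
      · by_cases h2 : t e = v
        · simp [h1, h2]
        · simp [h1, h2]
    rw [Finset.sum_congr rfl this, Finset.sum_add_distrib]
    simp only [Finset.sum_ite_eq]
    by_cases h1 : s e ∈ X <;> by_cases h2 : t e ∈ X <;> simp [h1, h2]
    decide

theorem odd_card_of_zmod {a b : ℕ} (h : (a : ZMod 2) = (b : ZMod 2)) : Odd a ↔ Odd b := by
  rw [← ZMod.natCast_eq_one_iff_odd, ← ZMod.natCast_eq_one_iff_odd, h]

/-- A perfect matching meets every odd cut in an odd number of edges. -/
theorem PM.odd_cut {s t : E → V} {M : Finset E} (hM : PM s t M) {X : Finset V}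
    (hX : Odd X.card) : Odd (M ∩ cut s t X).card := by
  have h := cut_parity s t M X
  have h2 : ∑ v ∈ X, (M ∩ cut s t {v}).card = X.card := by
    rw [Finset.sum_congr rfl (fun v _ => hM v)]
    simp
  rw [h2] at h
  exact (odd_card_of_zmod h).1 hX

theorem cut_compl [Fintype V] (s t : E → V) (X : Finset V) : cut s t Xᶜ = cut s t X := by
  ext e
  simp only [mem_cut, Finset.mem_compl]
  tauto

end Pool.Agent.MP_1dc4d0_coE
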