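import Mathlib

/-!
# Definitions for the statements: multigraphs given by an end map `ends : E → Sym2 V`
-/

set_option autoImplicit false

namespace Pool.Agent.MP_1dc4d0_coE

/-- The edge cut `δ(S)`: the edges with one end in `S` and one end outside `S`. -/
def edgeCut {V E : Type} (ends : E → Sym2 V) (S : Set V) : Set E :=
  {e | ∃ x y : V, x ∈ ends e ∧ y ∈ ends e ∧ x ∈ S ∧ y ∉ S}

/-- `M` is a perfect matching: every vertex is an end of exactly one edge of `M`. -/
def IsPM {V E : Type} (ends : E → Sym2 V) (M : Set E) : Prop :=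
  ∀ v : V, ∃! e : E, e ∈ M ∧ v ∈ ends e

/-- A bridgeless cubic multigraph: no loops, every vertex is an end of exactly three edges, no
edge cut consists of a single edge. -/
structure BridgelessCubic {V E : Type} (ends : E → Sym2 V) : Prop where
  loopless : ∀ e : E, ∃ x y : V, x ≠ y ∧ x ∈ ends e ∧ y ∈ ends e
  cubic : ∀ v : V, {e : E | v ∈ ends e}.ncard = 3
  bridgeless : ∀ (S : Set V) (b : E), edgeCut ends S ≠ {b}

end Pool.Agent.MP_1dc4d0_coE
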