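import Pool.Agent.Lib.MP_1dc4d0_coE.Contr

/-!
# Gluing the two contractions along a tight odd cut
-/

set_option autoImplicit false

namespace Pool.Agent.MP_1dc4d0_coE

open Finset

variable {V E : Type*} [Fintype V] [Fintype E] [DecidableEq E] [DecidableEq V]

/-- There is a perfect matching in the support of `w` whose cost is at most that of `w`. -/
def Concl (s t : E → V) (w c : E → ℝ) : Prop :=
  ∃ M : Finset E, (∀ e ∈ M, 0 < w e) ∧ PM s t M ∧ ∑ e ∈ M, c e ≤ ∑ e, c e * w e

theorem pos_of_cw {s t : E → V} {X : Finset V} {w : E → ℝ} {e : E} (h : 0 < cw s t X w e) :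
    0 < w e ∧ ¬ (s e ∈ X ∧ t e ∈ X) := by
  unfold cw at h
  split_ifs at h with h1
  · exact absurd h (lt_irrefl _)
  · exact ⟨h, h1⟩

theorem step_contract (s t : E → V) (w : E → ℝ) (X : Finset V)
    (ih1 : ∀ c, Concl (fun e => proj X (s e)) (fun e => proj X (t e)) (cw s t X w) c)
    (ih2 : ∀ c, Concl (fun e => proj Xᶜ (s e)) (fun e => proj Xᶜ (t e)) (cw s t Xᶜ w) c)
    (hw : ∀ e, 0 ≤ w e) (c : E → ℝ) : Concl s t w c := by
  classical
  set K := cut s t X with hK
  let good : Finset E → Prop := fun N => (∀ e ∈ N, 0 < cw s t Xᶜ w e) ∧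
    PM (fun e => proj Xᶜ (s e)) (fun e => proj Xᶜ (t e)) N
  have hcwK1 : ∀ e ∈ K, cw s t X w e = w e := by
    intro e he
    unfold cw
    rw [if_neg]
    rw [hK, mem_cut] at he
    tauto
  have hcwK2 : ∀ e ∈ K, cw s t Xᶜ w e = w e := by
    intro e he
    unfold cw
    rw [if_neg]
    rw [hK, mem_cut] at he
    simp only [Finset.mem_compl]
    tauto
  have hcwN : ∀ e, e ∉ K → cw s t X w e + cw s t Xᶜ w e = w e := by
    intro e he
    rw [hK, mem_cut] at he
    unfold cw
    simp only [Finset.mem_compl]
    by_cases h1 : s e ∈ X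
    · have h2 : t e ∈ X := by tauto
      simp [h1, h2]
    · have h2 : t e ∉ X := by tauto
      simp [h1, h2]
  -- every perfect matching of the inner side crosses the cut exactly once
  have hcross : ∀ N, good N → (N ∩ K).card = 1 := by
    intro N hN
    have := (pm_contract_iff.1 hN.2).1
    rwa [cut_compl] at this
  -- best inner completions
  have hbest : ∀ f, ∃ (N : Finset E) (a : ℝ), (f ∈ K → 0 < w f →
      good N ∧ f ∈ N ∧ a = ∑ e ∈ N \ K, c e ∧
        ∀ N', good N' → f ∈ N' → a ≤ ∑ e ∈ N' \ K, c e) := by
    intro f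
    by_cases hf : f ∈ K ∧ 0 < w f
    · have hne : ((univ : Finset (Finset E)).filter (fun N => good N ∧ f ∈ N)).Nonempty := by
        obtain ⟨N, hN1, hN2, hN3⟩ := ih2 (fun e => if e = f then -1 else 0)
        refine ⟨N, ?_⟩
        rw [Finset.mem_filter]
        refine ⟨Finset.mem_univ _, ⟨hN1, hN2⟩, ?_⟩
        by_contra hfN
        have h1 : ∑ e ∈ N, (if e = f then (-1 : ℝ) else 0) = 0 := by
          apply Finset.sum_eq_zero
          intro e he
          rw [if_neg]
          rintro rfl
          exact hfN he
        have h2 : ∑ e, (if e = f then (-1 : ℝ) else 0) * cw s t Xᶜ w e = - w f := by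
          rw [Finset.sum_eq_single f]
          · rw [if_pos rfl, hcwK2 f hf.1]; ring
          · intro e _ hef
            rw [if_neg hef]; ring
          · intro h; exact absurd (Finset.mem_univ f) h
        rw [h1, h2] at hN3
        linarith [hf.2]
      obtain ⟨N, hN, hmin⟩ := Finset.exists_min_image _ (fun N => ∑ e ∈ N \ K, c e) hne
      rw [Finset.mem_filter] at hN
      refine ⟨N, ∑ e ∈ N \ K, c e, fun _ _ => ⟨hN.2.1, hN.2.2, rfl, ?_⟩⟩
      intro N' h1 h2
      exact hmin N' (Finset.mem_filter.2 ⟨Finset.mem_univ _, h1, h2⟩)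
    · refine ⟨∅, 0, fun h1 h2 => absurd ⟨h1, h2⟩ hf⟩
  choose N a hNa using hbest
  -- the average of the inner costs
  have hstar : ∑ e ∈ K, a e * w e ≤ ∑ e ∈ univ \ K, c e * cw s t Xᶜ w e := by
    obtain ⟨M2, h1, h2, h3⟩ := ih2 (fun e => if e ∈ K then - a e else c e)
    have hg : good M2 := ⟨h1, h2⟩
    obtain ⟨f, hf⟩ := Finset.card_eq_one.1 (hcross M2 hg)
    have hfm : f ∈ M2 ∩ K := by rw [hf]; exact Finset.mem_singleton_self f
    rw [Finset.mem_inter] at hfm
    have hwf : 0 < w f := (pos_of_cw (h1 f hfm.1)).1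
    have hle := (hNa f hfm.2 hwf).2.2.2 M2 hg hfm.1
    have hs1 : ∑ e ∈ M2, (if e ∈ K then - a e else c e) = - a f + ∑ e ∈ M2 \ K, c e := by
      rw [← Finset.sum_inter_add_sum_sdiff M2 K, hf, Finset.sum_singleton, if_pos hfm.2]
      congr 1
      apply Finset.sum_congr rfl
      intro e he
      rw [Finset.mem_sdiff] at he
      rw [if_neg he.2]
    have hs2 : ∑ e, (if e ∈ K then - a e else c e) * cw s t Xᶜ w e
        = - ∑ e ∈ K, a e * w e + ∑ e ∈ univ \ K, c e * cw s t Xᶜ w e := by
      rw [← Finset.sum_inter_add_sum_sdiff univ K, Finset.univ_inter]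
      congr 1
      · rw [← Finset.sum_neg_distrib]
        apply Finset.sum_congr rfl
        intro e he
        rw [if_pos he, hcwK2 e he]; ring
      · apply Finset.sum_congr rfl
        intro e he
        rw [Finset.mem_sdiff] at he
        rw [if_neg he.2]
    rw [hs1, hs2] at h3
    linarith
  obtain ⟨M1, h1, h2, h3⟩ := ih1 (fun e => if e ∈ K then c e + a e else c e)
  have h2' := pm_contract_iff.1 h2
  obtain ⟨f, hf⟩ := Finset.card_eq_one.1 h2'.1
  have hfm : f ∈ M1 ∩ K := by rw [hK, hf]; exact Finset.mem_singleton_self f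
  rw [Finset.mem_inter] at hfm
  have hwf : 0 < w f := (pos_of_cw (h1 f hfm.1)).1
  obtain ⟨hgN, hfN, haf, _⟩ := hNa f hfm.2 hwf
  have hNK : ∀ e, e ∈ N f → e ∈ K → e = f := by
    intro e he heK
    obtain ⟨g, hg⟩ := Finset.card_eq_one.1 (hcross _ hgN)
    have e1 : e ∈ N f ∩ K := Finset.mem_inter.2 ⟨he, heK⟩
    have e2 : f ∈ N f ∩ K := Finset.mem_inter.2 ⟨hfN, hfm.2⟩
    rw [hg, Finset.mem_singleton] at e1 e2
    rw [e1, e2]
  have hMK : ∀ e, e ∈ M1 → e ∈ K → e = f := by
    intro e he heK
    have e1 : e ∈ M1 ∩ K := Finset.mem_inter.2 ⟨he, heK⟩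
    rw [hK, hf, Finset.mem_singleton] at e1
    exact e1
  refine ⟨M1 ∪ (N f \ K), ?_, ?_, ?_⟩
  · intro e he
    rw [Finset.mem_union, Finset.mem_sdiff] at he
    rcases he with he | he
    · exact (pos_of_cw (h1 e he)).1
    · exact (pos_of_cw (hgN.1 e he.1)).1
  · intro v
    by_cases hv : v ∈ X
    · have : (M1 ∪ (N f \ K)) ∩ cut s t {v} = N f ∩ cut s t {v} := by
        ext e
        simp only [Finset.mem_inter, Finset.mem_union, Finset.mem_sdiff]
        constructor
        · rintro ⟨he | he, hev⟩
          · refine ⟨?_, hev⟩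
            have hnot := (pos_of_cw (h1 e he)).2
            have heK : e ∈ K := by
              rw [hK, mem_cut]
              rw [mem_cut_single] at hev
              intro hiff
              by_cases hs : s e ∈ X
              · exact hnot ⟨hs, hiff.1 hs⟩
              · have ht : t e ∉ X := fun h => hs (hiff.2 h)
                apply hev
                constructor
                · intro h; rw [h] at hs; exact absurd hv hs
                · intro h; rw [h] at ht; exact absurd hv ht
            rw [hMK e he heK]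
            exact hfN
          · exact ⟨he.1, hev⟩
        · rintro ⟨he, hev⟩
          refine ⟨?_, hev⟩
          by_cases heK : e ∈ K
          · left
            rw [hNK e he heK]
            exact hfm.1
          · right
            exact ⟨he, heK⟩
      rw [this]
      exact (pm_contract_iff.1 hgN.2).2 v (by simpa using hv)
    · have : (M1 ∪ (N f \ K)) ∩ cut s t {v} = M1 ∩ cut s t {v} := by
        ext e
        simp only [Finset.mem_inter, Finset.mem_union, Finset.mem_sdiff]
        constructor
        · rintro ⟨he | he, hev⟩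
          · exact ⟨he, hev⟩
          · exfalso
            have hnot := (pos_of_cw (hgN.1 e he.1)).2
            have heK := he.2
            rw [hK, mem_cut] at heK
            rw [mem_cut_single] at hev
            simp only [Finset.mem_compl] at hnot
            have hs : s e ∈ X := by tauto
            have ht : t e ∈ X := by tauto
            apply hev
            constructor
            · intro h; rw [h] at hs; exact absurd hs hv
            · intro h; rw [h] at ht; exact absurd ht hv
        · rintro ⟨he, hev⟩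
          exact ⟨Or.inl he, hev⟩
      rw [this]
      exact h2'.2 v hv
  · have hdisj : Disjoint M1 (N f \ K) := by
      rw [Finset.disjoint_left]
      intro e he1 he2
      rw [Finset.mem_sdiff] at he2
      have hn1 := (pos_of_cw (h1 e he1)).2
      have hn2 := (pos_of_cw (hgN.1 e he2.1)).2
      have heK := he2.2
      rw [hK, mem_cut] at heK
      simp only [Finset.mem_compl] at hn2
      tauto
    rw [Finset.sum_union hdisj, ← haf]
    have hs1 : ∑ e ∈ M1, (if e ∈ K then c e + a e else c e) = ∑ e ∈ M1, c e + a f := by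
      have : ∀ e ∈ M1, (if e ∈ K then c e + a e else c e) = c e + (if e = f then a f else 0) := by
        intro e he
        by_cases heK : e ∈ K
        · rw [if_pos heK, hMK e he heK, if_pos rfl]
        · rw [if_neg heK, if_neg, add_zero]
          rintro rfl
          exact heK hfm.2
      rw [Finset.sum_congr rfl this, Finset.sum_add_distrib, Finset.sum_ite_eq', if_pos hfm.1]
    have hs2 : ∑ e, (if e ∈ K then c e + a e else c e) * cw s t X w e
        = ∑ e ∈ K, (c e + a e) * w e + ∑ e ∈ univ \ K, c e * cw s t X w e := by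
      rw [← Finset.sum_inter_add_sum_sdiff univ K, Finset.univ_inter]
      congr 1
      · apply Finset.sum_congr rfl
        intro e he
        rw [if_pos he, hcwK1 e he]
      · apply Finset.sum_congr rfl
        intro e he
        rw [Finset.mem_sdiff] at he
        rw [if_neg he.2]
    have hs3 : ∑ e, c e * w e = ∑ e ∈ K, c e * w e + (∑ e ∈ univ \ K, c e * cw s t X w e
        + ∑ e ∈ univ \ K, c e * cw s t Xᶜ w e) := by
      rw [← Finset.sum_inter_add_sum_sdiff univ K, Finset.univ_inter, ← Finset.sum_add_distrib]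
      congr 1
      apply Finset.sum_congr rfl
      intro e he
      rw [Finset.mem_sdiff] at he
      rw [← mul_add, hcwN e he.2]
    have hs4 : ∑ e ∈ K, (c e + a e) * w e = ∑ e ∈ K, c e * w e + ∑ e ∈ K, a e * w e := by
      rw [← Finset.sum_add_distrib]
      apply Finset.sum_congr rfl
      intro e _
      ring
    rw [hs1, hs2, hs4] at h3
    rw [hs3]
    linarith

end Pool.Agent.MP_1dc4d0_coE
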