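import Pool.Agent.Lib.MP_1dc4d0_coE.Supp
import Pool.Agent.Lib.MP_1dc4d0_coE.Glue

/-!
# Edmonds' perfect matching polytope theorem (cost form)

For every fractional perfect matching `w` and every cost vector `c` there is a perfect matching
in the support of `w` whose cost is at most `c · w`.
-/

set_option autoImplicit false

namespace Pool.Agent.MP_1dc4d0_coE

open Finset

variable {V E : Type*} [Fintype V] [Fintype E] [DecidableEq E] [DecidableEq V]

theorem card_le_one_of_small {s t : E → V} {M : Finset E} (hM : PM s t M) {X : Finset V}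
    (hX : X.card < 2 ∨ Xᶜ.card < 2) : (M ∩ cut s t X).card ≤ 1 := by
  have key : ∀ Y : Finset V, Y.card < 2 → (M ∩ cut s t Y).card ≤ 1 := by
    intro Y hY
    have : Y.card = 0 ∨ Y.card = 1 := by omega
    rcases this with h | h
    · rw [Finset.card_eq_zero] at h
      subst h
      have : cut s t (∅ : Finset V) = ∅ := by
        ext e; simp [mem_cut]
      rw [this]
      simp
    · obtain ⟨v, rfl⟩ := Finset.card_eq_one.1 h
      exact (hM v).le
  rcases hX with h | h
  · exact key X h
  · have := key Xᶜ h
    rwa [cut_compl] at this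

/-- Moving away from an expensive perfect matching until a new tight set or a new zero appears. -/
theorem step_reduce (s t : E → V) (w : E → ℝ) (hw : Frac s t w) (c : E → ℝ) (M : Finset E)
    (hMs : ∀ e ∈ M, 0 < w e) (hM : PM s t M) (hc : ∑ e, c e * w e < ∑ e ∈ M, c e)
    (hnt : ∀ X : Finset V, Odd X.card → 2 ≤ X.card → 2 ≤ Xᶜ.card →
      ∑ e ∈ cut s t X, w e ≠ 1) :
    ∃ w' : E → ℝ, Frac s t w' ∧ (∀ e, 0 < w' e → 0 < w e) ∧
      ∑ e, c e * w' e < ∑ e, c e * w e ∧
      ((∃ e, 0 < w e ∧ w' e = 0) ∨ ∃ X : Finset V, Odd X.card ∧ 2 ≤ X.card ∧ 2 ≤ Xᶜ.card ∧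
        ∑ e ∈ cut s t X, w' e = 1) := by
  classical
  -- the odd sets crossed at least twice
  set B : Finset (Finset V) := univ.filter (fun X => Odd X.card ∧ 2 ≤ (M ∩ cut s t X).card)
    with hB
  have hBnt : ∀ X ∈ B, 2 ≤ X.card ∧ 2 ≤ Xᶜ.card := by
    intro X hX
    rw [hB, Finset.mem_filter] at hX
    by_contra hcon
    have : X.card < 2 ∨ Xᶜ.card < 2 := by
      by_contra h2
      push Not at h2
      exact hcon h2
    have := card_le_one_of_small hM this
    omega
  let r : Finset V → ℝ := fun X =>
    ((∑ e ∈ cut s t X, w e) - 1) / (((M ∩ cut s t X).card : ℝ) - 1)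
  have hden : ∀ X ∈ B, (0 : ℝ) < ((M ∩ cut s t X).card : ℝ) - 1 := by
    intro X hX
    rw [hB, Finset.mem_filter] at hX
    have : (2 : ℝ) ≤ ((M ∩ cut s t X).card : ℝ) := by exact_mod_cast hX.2.2
    linarith
  have hrpos : ∀ X ∈ B, 0 < r X := by
    intro X hX
    apply div_pos _ (hden X hX)
    have h1 := hBnt X hX
    have h2 : Odd X.card := by
      rw [hB, Finset.mem_filter] at hX
      exact hX.2.1
    have h3 := hw.odd X h2
    have h4 := hnt X h2 h1.1 h1.2
    have : (1 : ℝ) < ∑ e ∈ cut s t X, w e := lt_of_le_of_ne h3 (Ne.symm h4)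
    linarith
  -- the step length
  set R : Finset ℝ := M.image w ∪ B.image r with hR
  by_cases hMe : M = ∅
  · -- then there are no vertices, and everything is zero
    exfalso
    have hV : ∀ v : V, False := by
      intro v
      have := hM v
      rw [hMe] at this
      simp at this
    have hE : ∀ e : E, False := fun e => hV (s e)
    have : ∑ e, c e * w e = 0 := Finset.sum_eq_zero (fun e _ => (hE e).elim)
    rw [this, hMe, Finset.sum_empty] at hc
    exact lt_irrefl _ hc
  have hRne : R.Nonempty := by
    obtain ⟨e, he⟩ := Finset.nonempty_iff_ne_empty.2 hMe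
    exact ⟨w e, Finset.mem_union_left _ (Finset.mem_image_of_mem _ he)⟩
  set ε := R.min' hRne with hε
  have hεmem : ε ∈ R := Finset.min'_mem _ _
  have hεle : ∀ x ∈ R, ε ≤ x := fun x hx => Finset.min'_le _ _ hx
  have hεpos : 0 < ε := by
    have := hεmem
    rw [hR, Finset.mem_union, Finset.mem_image, Finset.mem_image] at this
    rcases this with ⟨e, he, h⟩ | ⟨X, hX, h⟩
    · rw [← h]; exact hMs e he
    · rw [← h]; exact hrpos X hX
  have hεM : ∀ e ∈ M, ε ≤ w e := fun e he =>
    hεle _ (Finset.mem_union_left _ (Finset.mem_image_of_mem _ he))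
  have hεX : ∀ X ∈ B, ε * (((M ∩ cut s t X).card : ℝ) - 1) ≤ (∑ e ∈ cut s t X, w e) - 1 := by
    intro X hX
    have h1 : ε ≤ r X := hεle _ (Finset.mem_union_right _ (Finset.mem_image_of_mem _ hX))
    exact (le_div_iff₀ (hden X hX)).1 h1
  -- total weight at a vertex
  have hε1 : ε < 1 := by
    by_contra hge
    push Not at hge
    have hwM : ∀ e ∈ M, 1 ≤ w e := fun e he => hge.trans (hεM e he)
    have hout : ∀ e, e ∉ M → w e = 0 := by
      intro e he
      by_cases hst : s e = t e
      · exact hw.loop e hst
      · have hcut : e ∈ cut s t {s e} := by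
          rw [mem_cut_single]
          intro h
          exact hst (h.1 rfl).symm
        obtain ⟨f, hf⟩ := Finset.card_eq_one.1 (hM (s e))
        have hfm : f ∈ M ∩ cut s t {s e} := by rw [hf]; exact Finset.mem_singleton_self f
        rw [Finset.mem_inter] at hfm
        have hne : e ≠ f := by rintro rfl; exact he hfm.1
        have hd := hw.deg (s e)
        have hsub : ({e, f} : Finset E) ⊆ cut s t {s e} := by
          intro g hg
          rw [Finset.mem_insert, Finset.mem_singleton] at hg
          rcases hg with rfl | rfl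
          · exact hcut
          · exact hfm.2
        have hle := Finset.sum_le_sum_of_subset_of_nonneg hsub (f := w)
          (fun g _ _ => hw.nonneg g)
        rw [Finset.sum_pair hne, hd] at hle
        have := hw.nonneg e
        have := hwM f hfm.1
        linarith
    have hin : ∀ e ∈ M, w e = 1 := by
      intro e he
      have hst : s e ≠ t e := by
        intro h
        have := hw.loop e h
        have := hMs e he
        linarith
      have hcut : e ∈ cut s t {s e} := by
        rw [mem_cut_single]
        intro h
        exact hst (h.1 rfl).symm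
      have hd := hw.deg (s e)
      have hle := Finset.single_le_sum (f := w) (fun g _ => hw.nonneg g) hcut
      rw [hd] at hle
      exact le_antisymm hle (hwM e he)
    have : ∑ e, c e * w e = ∑ e ∈ M, c e := by
      rw [← Finset.sum_subset (Finset.subset_univ M)]
      · apply Finset.sum_congr rfl
        intro e he
        rw [hin e he, mul_one]
      · intro e _ he
        rw [hout e he, mul_zero]
    rw [this] at hc
    exact lt_irrefl _ hc
  have h1ε : 0 < 1 - ε := by linarith
  set w' : E → ℝ := fun e => (w e - (if e ∈ M then ε else 0)) / (1 - ε) with hw'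
  have hsum : ∀ A : Finset E, ∑ e ∈ A, w' e
      = (∑ e ∈ A, w e - ε * ((M ∩ A).card : ℝ)) / (1 - ε) := by
    intro A
    rw [hw', ← Finset.sum_div, Finset.sum_sub_distrib, ← Finset.sum_filter, Finset.sum_const,
      nsmul_eq_mul]
    congr 2
    have : A.filter (fun e => e ∈ M) = M ∩ A := by
      ext e; simp [and_comm]
    rw [this]
    ring
  have hfrac : Frac s t w' := by
    refine ⟨?_, ?_, ?_, ?_⟩
    · intro e
      apply div_nonneg _ h1ε.le
      split_ifs with he
      · linarith [hεM e he]
      · linarith [hw.nonneg e]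
    · intro e he
      have h0 := hw.loop e he
      have : e ∉ M := by
        intro hm
        have := hMs e hm
        rw [h0] at this
        exact lt_irrefl _ this
      simp [hw', h0, this]
    · intro v
      rw [hsum, hw.deg v, hM v]
      rw [div_eq_one_iff_eq h1ε.ne']
      push_cast
      ring
    · intro X hX
      rw [hsum, le_div_iff₀ h1ε]
      have h3 := hw.odd X hX
      by_cases hXB : X ∈ B
      · have := hεX X hXB
        linarith
      · have hk : (M ∩ cut s t X).card ≤ 1 := by
          by_contra h
          push Not at h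
          apply hXB
          rw [hB, Finset.mem_filter]
          exact ⟨Finset.mem_univ _, hX, h⟩
        have hk' : ((M ∩ cut s t X).card : ℝ) ≤ 1 := by exact_mod_cast hk
        have : ε * ((M ∩ cut s t X).card : ℝ) ≤ ε := by
          nlinarith
        linarith
  refine ⟨w', hfrac, ?_, ?_, ?_⟩
  · intro e he
    rcases (hw.nonneg e).lt_or_eq with h | h
    · exact h
    · exfalso
      have hem : e ∉ M := by
        intro hm
        have := hMs e hm
        rw [← h] at this
        exact lt_irrefl _ this
      have : w' e = 0 := by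
        simp [hw', ← h, hem]
      rw [this] at he
      exact lt_irrefl _ he
  · have : ∑ e, c e * w' e = (∑ e, c e * w e - ε * ∑ e ∈ M, c e) / (1 - ε) := by
      rw [Finset.mul_sum, hw']
      have h1 : ∑ e ∈ M, ε * c e = ∑ e, (if e ∈ M then ε * c e else 0) := by
        rw [Finset.sum_ite_mem, Finset.univ_inter]
      rw [h1, ← Finset.sum_sub_distrib, Finset.sum_div]
      apply Finset.sum_congr rfl
      intro e _
      dsimp only
      split_ifs
      · ring
      · ring
    rw [this, div_lt_iff₀ h1ε]
    nlinarith
  · have := hεmem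
    rw [hR, Finset.mem_union, Finset.mem_image, Finset.mem_image] at this
    rcases this with ⟨e, he, h⟩ | ⟨X, hX, h⟩
    · left
      refine ⟨e, hMs e he, ?_⟩
      simp [hw', he, h]
    · right
      have h1 := hBnt X hX
      have h2 : Odd X.card := by
        rw [hB, Finset.mem_filter] at hX
        exact hX.2.1
      refine ⟨X, h2, h1.1, h1.2, ?_⟩
      rw [hsum, div_eq_one_iff_eq h1ε.ne']
      have h3 := hden X hX
      have h4 : ε * (((M ∩ cut s t X).card : ℝ) - 1) = (∑ e ∈ cut s t X, w e) - 1 := by
        rw [← h]
        exact div_mul_cancel₀ _ h3.ne'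
      linarith

theorem odd_compl {X : Finset V} (hX : Odd X.card) (hV : Even (Fintype.card V)) :
    Odd Xᶜ.card := by
  rw [Finset.card_compl]
  exact Nat.Even.sub_odd (Finset.card_le_univ X) hV hX

theorem Frac.even_card {s t : E → V} {w : E → ℝ} (hw : Frac s t w) :
    Even (Fintype.card V) := by
  by_contra h
  rw [Nat.not_even_iff_odd] at h
  have := hw.odd univ (by rw [Finset.card_univ]; exact h)
  have h2 : cut s t (univ : Finset V) = ∅ := by
    ext e; simp [mem_cut]
  rw [h2, Finset.sum_empty] at this
  linarith

/-- **Edmonds' perfect matching polytope theorem**, cost form. -/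
theorem edmonds_aux {E : Type*} [Fintype E] [DecidableEq E] :
    ∀ (N : ℕ) (V : Type*) [Fintype V] [DecidableEq V], Fintype.card V = N →
      ∀ (k : ℕ) (s t : E → V) (w : E → ℝ), Frac s t w →
        (univ.filter (fun e => 0 < w e)).card = k → ∀ c, Concl s t w c := by
  intro N
  induction N using Nat.strong_induction_on with
  | _ N ihN =>
    intro V _ _ hV k
    -- contraction step
    have hcontr : ∀ (s t : E → V) (w : E → ℝ), Frac s t w → ∀ X : Finset V, Odd X.card →
        2 ≤ X.card → 2 ≤ Xᶜ.card → ∑ e ∈ cut s t X, w e = 1 → ∀ c, Concl s t w c := by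
      intro s t w hw X hX h2 h2' ht c
      have hXc := odd_compl hX hw.even_card
      apply step_contract s t w X
      · intro c'
        exact ihN _ (by rw [← hV]; exact card_CV_lt h2) (CV X) rfl _ _ _ _
          (hw.contract hX ht) rfl c'
      · intro c'
        exact ihN _ (by rw [← hV]; exact card_CV_lt h2') (CV Xᶜ) rfl _ _ _ _
          (hw.contract hXc (by rw [cut_compl]; exact ht)) rfl c'
      · exact hw.nonneg
    induction k using Nat.strong_induction_on with
    | _ k ihk =>
      intro s t w hw hk c
      by_cases hnt : ∃ X : Finset V, Odd X.card ∧ 2 ≤ X.card ∧ 2 ≤ Xᶜ.card ∧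
          ∑ e ∈ cut s t X, w e = 1
      · obtain ⟨X, h1, h2, h3, h4⟩ := hnt
        exact hcontr s t w hw X h1 h2 h3 h4 c
      · obtain ⟨M, hMs, hM⟩ := exists_pm s t w hw
        by_cases hc : ∑ e ∈ M, c e ≤ ∑ e, c e * w e
        · exact ⟨M, hMs, hM, hc⟩
        · push Not at hc
          obtain ⟨w', hf, hsup, hlt, hor⟩ := step_reduce s t w hw c M hMs hM hc
            (fun X h1 h2 h3 h4 => hnt ⟨X, h1, h2, h3, h4⟩)
          have : Concl s t w' c := by
            rcases hor with ⟨e, he, he'⟩ | ⟨X, h1, h2, h3, h4⟩
            · apply ihk (univ.filter (fun e => 0 < w' e)).card _ s t w' hf rfl c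
              rw [← hk]
              apply Finset.card_lt_card
              rw [Finset.ssubset_iff_of_subset]
              · refine ⟨e, ?_, ?_⟩
                · simp [he]
                · simp [he']
              · intro g hg
                rw [Finset.mem_filter] at hg ⊢
                exact ⟨hg.1, hsup g hg.2⟩
            · exact hcontr s t w' hf X h1 h2 h3 h4 c
          obtain ⟨M', a1, a2, a3⟩ := this
          exact ⟨M', fun e he => hsup e (a1 e he), a2, a3.trans hlt.le⟩

theorem edmonds (s t : E → V) (w : E → ℝ) (hw : Frac s t w) (c : E → ℝ) : Concl s t w c :=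
  edmonds_aux _ V rfl _ s t w hw rfl c

end Pool.Agent.MP_1dc4d0_coE
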