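import Mathlib

/-!
# Tutte's theorem in a form convenient for counting

If a finite graph has no perfect matching, there are a set `S` and more than `|S|` pairwise
disjoint odd sets avoiding `S`, each closed under adjacency outside `S`.
-/

set_option autoImplicit false

namespace Pool.Agent.MP_1dc4d0_coE

open Finset

theorem tutte_family {V : Type*} [Fintype V] [DecidableEq V] (G : SimpleGraph V)
    (h : ¬ ∃ M : SimpleGraph.Subgraph G, M.IsPerfectMatching) :
    ∃ (S : Finset V) (C : Finset (Finset V)), S.card < C.card ∧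
      (∀ X ∈ C, Odd X.card) ∧ (∀ X ∈ C, ∀ v ∈ X, v ∉ S) ∧
      (∀ X ∈ C, ∀ Y ∈ C, ∀ v, v ∈ X → v ∈ Y → X = Y) ∧
      (∀ X ∈ C, ∀ v ∈ X, ∀ w, w ∉ S → G.Adj v w → w ∈ X) := by
  classical
  rw [SimpleGraph.tutte] at h
  push Not at h
  obtain ⟨u, hu⟩ := h
  unfold SimpleGraph.IsTutteViolator at hu
  set H := ((⊤ : G.Subgraph).deleteVerts u) with hH
  set oc : Set H.coe.ConnectedComponent := H.coe.oddComponents with hoc
  have hfin : Finite H.coe.ConnectedComponent := inferInstance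
  have : Fintype H.coe.ConnectedComponent := Fintype.ofFinite _
  let F : H.coe.ConnectedComponent → Finset V := fun c =>
    (univ.filter (fun v : V => ∃ hv : v ∈ H.verts, (⟨v, hv⟩ : H.verts) ∈ c.supp))
  have hmemF : ∀ c v, v ∈ F c ↔ ∃ hv : v ∈ H.verts, (⟨v, hv⟩ : H.verts) ∈ c.supp := by
    intro c v
    simp [F]
  have hverts : ∀ v, v ∈ H.verts ↔ v ∉ u := by
    intro v
    simp [hH]
  have hFinj : Function.Injective F := by
    intro c d hcd
    obtain ⟨⟨v, hv⟩, hvc⟩ := c.nonempty_supp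
    have h1 : v ∈ F c := (hmemF c v).2 ⟨hv, hvc⟩
    rw [hcd] at h1
    obtain ⟨hv', hvd⟩ := (hmemF d v).1 h1
    rw [SimpleGraph.ConnectedComponent.mem_supp_iff] at hvc hvd
    exact hvc.symm.trans hvd
  have hcard : ∀ c, (F c).card = c.supp.ncard := by
    intro c
    have : (F c : Set V) = Subtype.val '' c.supp := by
      ext v
      constructor
      · intro hv
        obtain ⟨hv1, hv2⟩ := (hmemF c v).1 (Finset.mem_coe.1 hv)
        exact ⟨⟨v, hv1⟩, hv2, rfl⟩
      · rintro ⟨⟨w, hw⟩, hwc, rfl⟩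
        exact Finset.mem_coe.2 ((hmemF c w).2 ⟨hw, hwc⟩)
    rw [← Set.ncard_coe_finset, this, Set.ncard_image_of_injective _ Subtype.val_injective]
  refine ⟨u.toFinset, (oc.toFinset).image F, ?_, ?_, ?_, ?_, ?_⟩
  · rw [Finset.card_image_of_injective _ hFinj, ← Set.ncard_eq_toFinset_card',
      ← Set.ncard_eq_toFinset_card']
    exact hu
  · intro X hX
    obtain ⟨c, hc, rfl⟩ := Finset.mem_image.1 hX
    rw [hcard]
    have h2 : c ∈ oc := Set.mem_toFinset.1 hc
    exact h2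
  · intro X hX v hv
    obtain ⟨c, hc, rfl⟩ := Finset.mem_image.1 hX
    obtain ⟨hv1, _⟩ := (hmemF c v).1 hv
    rw [Set.mem_toFinset]
    exact (hverts v).1 hv1
  · intro X hX Y hY v hvX hvY
    obtain ⟨c, hc, rfl⟩ := Finset.mem_image.1 hX
    obtain ⟨d, hd, rfl⟩ := Finset.mem_image.1 hY
    obtain ⟨hv1, hv2⟩ := (hmemF c v).1 hvX
    obtain ⟨hv1', hv2'⟩ := (hmemF d v).1 hvY
    rw [SimpleGraph.ConnectedComponent.mem_supp_iff] at hv2 hv2'
    rw [← hv2, ← hv2']
  · intro X hX v hv w hw hvw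
    obtain ⟨c, hc, rfl⟩ := Finset.mem_image.1 hX
    obtain ⟨hv1, hv2⟩ := (hmemF c v).1 hv
    rw [Set.mem_toFinset] at hw
    have hw1 : w ∈ H.verts := (hverts w).2 hw
    refine (hmemF c w).2 ⟨hw1, ?_⟩
    rw [SimpleGraph.ConnectedComponent.mem_supp_iff] at hv2 ⊢
    rw [← hv2]
    apply SimpleGraph.ConnectedComponent.sound
    apply SimpleGraph.Adj.reachable
    have hvu := (hverts v).1 hv1
    simp [hH, hvw.symm, hvu, hw]

end Pool.Agent.MP_1dc4d0_coE
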