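import Pool.Agent.Lib.MP_1dc4d0_coE.Cut
import Pool.Agent.Lib.MP_1dc4d0_coE.Tut

/-!
# A perfect matching in the support of a fractional perfect matching
-/

set_option autoImplicit false

namespace Pool.Agent.MP_1dc4d0_coE

open Finset

variable {V E : Type*} [Fintype V] [Fintype E] [DecidableEq E] [DecidableEq V]

/-- The simple graph of the pairs joined by an edge of positive weight. -/
def suppG (s t : E → V) (w : E → ℝ) : SimpleGraph V where
  Adj u v := u ≠ v ∧ ∃ e, 0 < w e ∧ ((s e = u ∧ t e = v) ∨ (s e = v ∧ t e = u))
  symm := by
    constructor
    rintro u v ⟨h, e, he, h'⟩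
    exact ⟨h.symm, e, he, h'.symm⟩
  loopless := by
    constructor
    rintro u ⟨h, _⟩
    exact h rfl

theorem exists_subgraph_pm (s t : E → V) (w : E → ℝ) (hw : Frac s t w) :
    ∃ M : SimpleGraph.Subgraph (suppG s t w), M.IsPerfectMatching := by
  classical
  by_contra hno
  obtain ⟨S, C, hlt, hodd, hdis, hpair, hclosed⟩ := tutte_family _ hno
  have h1 : (C.card : ℝ) ≤ ∑ X ∈ C, ∑ e ∈ cut s t X, w e := by
    have : ∑ X ∈ C, (1 : ℝ) ≤ ∑ X ∈ C, ∑ e ∈ cut s t X, w e :=
      Finset.sum_le_sum (fun X hX => hw.odd X (hodd X hX))
    simpa using this
  have h2 : ∑ v ∈ S, ∑ e ∈ cut s t {v}, w e = (S.card : ℝ) := by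
    rw [Finset.sum_congr rfl (fun v _ => hw.deg v)]
    simp
  have e1 : ∀ X : Finset V, ∑ e ∈ cut s t X, w e
      = ∑ e, (if e ∈ cut s t X then w e else 0) := by
    intro X
    rw [Finset.sum_ite_mem, Finset.univ_inter]
  have h3 : ∑ X ∈ C, ∑ e ∈ cut s t X, w e ≤ ∑ v ∈ S, ∑ e ∈ cut s t {v}, w e := by
    simp_rw [e1]
    rw [Finset.sum_comm, Finset.sum_comm (s := S)]
    apply Finset.sum_le_sum
    intro e _
    have hwe := hw.nonneg e
    rcases hwe.lt_or_eq with hpos | hzero
    · have hne : s e ≠ t e := fun h => by
        have := hw.loop e h
        rw [this] at hpos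
        exact lt_irrefl _ hpos
      -- at most one member of C is crossed by e, and only if an end is in S
      by_cases hsS : s e ∈ S
      · by_cases htS : t e ∈ S
        · have : ∀ X ∈ C, (if e ∈ cut s t X then w e else 0) = 0 := by
            intro X hX
            rw [if_neg]
            rw [mem_cut]
            push Not
            constructor
            · intro h; exact absurd hsS (hdis X hX _ h)
            · intro h; exact absurd htS (hdis X hX _ h)
          rw [Finset.sum_eq_zero this]
          apply Finset.sum_nonneg
          intro v _
          split_ifs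
          · exact hwe
          · exact le_refl _
        · calc ∑ X ∈ C, (if e ∈ cut s t X then w e else 0)
              = ∑ X ∈ C.filter (fun X => e ∈ cut s t X), w e := by rw [Finset.sum_filter]
            _ = (C.filter (fun X => e ∈ cut s t X)).card • w e := by rw [Finset.sum_const]
            _ ≤ 1 • w e := by
                apply nsmul_le_nsmul_left hwe
                apply Finset.card_le_one.2
                intro X hX Y hY
                rw [Finset.mem_filter] at hX hY
                have hsX : s e ∉ X := fun h => hdis X hX.1 _ h hsS
                have hsY : s e ∉ Y := fun h => hdis Y hY.1 _ h hsS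
                have htX : t e ∈ X := by
                  have := hX.2; rw [mem_cut] at this; tauto
                have htY : t e ∈ Y := by
                  have := hY.2; rw [mem_cut] at this; tauto
                exact hpair X hX.1 Y hY.1 _ htX htY
            _ = (if e ∈ cut s t {s e} then w e else 0) := by
                rw [if_pos, one_smul]
                rw [mem_cut_single]
                intro h
                exact hne ((h.1 rfl).symm)
            _ ≤ ∑ v ∈ S, (if e ∈ cut s t {v} then w e else 0) := by
                apply Finset.single_le_sum
                  (f := fun v => if e ∈ cut s t {v} then w e else (0 : ℝ)) _ hsS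
                intro v _
                split_ifs
                · exact hwe
                · exact le_refl _
      · by_cases htS : t e ∈ S
        · calc ∑ X ∈ C, (if e ∈ cut s t X then w e else 0)
              = ∑ X ∈ C.filter (fun X => e ∈ cut s t X), w e := by rw [Finset.sum_filter]
            _ = (C.filter (fun X => e ∈ cut s t X)).card • w e := by rw [Finset.sum_const]
            _ ≤ 1 • w e := by
                apply nsmul_le_nsmul_left hwe
                apply Finset.card_le_one.2
                intro X hX Y hY
                rw [Finset.mem_filter] at hX hY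
                have hsX : t e ∉ X := fun h => hdis X hX.1 _ h htS
                have hsY : t e ∉ Y := fun h => hdis Y hY.1 _ h htS
                have htX : s e ∈ X := by
                  have := hX.2; rw [mem_cut] at this; tauto
                have htY : s e ∈ Y := by
                  have := hY.2; rw [mem_cut] at this; tauto
                exact hpair X hX.1 Y hY.1 _ htX htY
            _ = (if e ∈ cut s t {t e} then w e else 0) := by
                rw [if_pos, one_smul]
                rw [mem_cut_single]
                intro h
                exact hne (h.2 rfl)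
            _ ≤ ∑ v ∈ S, (if e ∈ cut s t {v} then w e else 0) := by
                apply Finset.single_le_sum
                  (f := fun v => if e ∈ cut s t {v} then w e else (0 : ℝ)) _ htS
                intro v _
                split_ifs
                · exact hwe
                · exact le_refl _
        · have : ∀ X ∈ C, (if e ∈ cut s t X then w e else 0) = 0 := by
            intro X hX
            rw [if_neg]
            rw [mem_cut]
            push Not
            constructor
            · intro h
              exact hclosed X hX _ h _ htS ⟨hne, e, hpos, Or.inl ⟨rfl, rfl⟩⟩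
            · intro h
              exact hclosed X hX _ h _ hsS ⟨hne.symm, e, hpos, Or.inr ⟨rfl, rfl⟩⟩
          rw [Finset.sum_eq_zero this]
          apply Finset.sum_nonneg
          intro v _
          split_ifs
          · exact hwe
          · exact le_refl _
    · rw [← hzero]
      simp
  rw [h2] at h3
  have h4 : (S.card : ℝ) < C.card := by exact_mod_cast hlt
  linarith

/-- A vector of the perfect matching polytope has a perfect matching in its support. -/
theorem exists_pm (s t : E → V) (w : E → ℝ) (hw : Frac s t w) :
    ∃ M : Finset E, (∀ e ∈ M, 0 < w e) ∧ PM s t M := by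
  classical
  obtain ⟨N, hN⟩ := exists_subgraph_pm s t w hw
  rw [SimpleGraph.Subgraph.isPerfectMatching_iff] at hN
  choose m hm hmu using hN
  have hadj : ∀ v, (suppG s t w).Adj v (m v) := fun v => (hm v).adj_sub
  have hmm : ∀ v, m (m v) = v := by
    intro v
    exact (hmu (m v) v (hm v).symm).symm
  -- choose an edge for every pair
  have hch : ∀ z : Sym2 V, ∃ e : Option E, (∀ e', e = some e' → 0 < w e' ∧ s(s e', t e') = z) ∧
      ((∃ e', 0 < w e' ∧ s(s e', t e') = z) → e.isSome) := by
    intro z
    by_cases h : ∃ e', 0 < w e' ∧ s(s e', t e') = z
    · obtain ⟨e', he'⟩ := h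
      refine ⟨some e', ?_, ?_⟩
      · intro e'' he''
        cases he''
        exact he'
      · intro _
        rfl
    · refine ⟨none, ?_, ?_⟩
      · intro e'' he''
        cases he''
      · intro h'
        exact absurd h' h
  choose ce hce1 hce2 using hch
  have hex : ∀ v, ∃ e', ce s(v, m v) = some e' := by
    intro v
    obtain ⟨hne, e, he, h⟩ := hadj v
    have : (ce s(v, m v)).isSome := by
      apply hce2
      refine ⟨e, he, ?_⟩
      rw [Sym2.eq_iff]
      tauto
    exact Option.isSome_iff_exists.1 this
  choose g hg using hex
  have hgpos : ∀ v, 0 < w (g v) := fun v => (hce1 _ _ (hg v)).1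
  have hgend : ∀ v, s(s (g v), t (g v)) = s(v, m v) := fun v => (hce1 _ _ (hg v)).2
  have hgm : ∀ u v, s(u, m u) = s(v, m v) → g u = g v := by
    intro u v h
    have h1 := hg u
    rw [h, hg v] at h1
    exact (Option.some.inj h1).symm
  refine ⟨univ.image g, ?_, ?_⟩
  · intro e he
    obtain ⟨v, _, rfl⟩ := Finset.mem_image.1 he
    exact hgpos v
  · intro v
    rw [Finset.card_eq_one]
    refine ⟨g v, ?_⟩
    ext e
    simp only [Finset.mem_inter, Finset.mem_image, Finset.mem_univ, true_and,
      Finset.mem_singleton]
    constructor
    · rintro ⟨⟨u, rfl⟩, hcut⟩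
      apply hgm
      rw [mem_cut_single] at hcut
      have hend := hgend u
      rw [Sym2.eq_iff] at hend
      rw [Sym2.eq_iff]
      rcases hend with ⟨h1, h2⟩ | ⟨h1, h2⟩
      · rw [h1, h2] at hcut
        by_cases huv : u = v
        · left; subst huv; exact ⟨rfl, rfl⟩
        · have hmv : m u = v := by tauto
          right
          refine ⟨?_, hmv⟩
          rw [← hmv, hmm]
      · rw [h1, h2] at hcut
        by_cases huv : u = v
        · left; subst huv; exact ⟨rfl, rfl⟩
        · have hmv : m u = v := by tauto
          right
          refine ⟨?_, hmv⟩
          rw [← hmv, hmm]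
    · rintro rfl
      refine ⟨⟨v, rfl⟩, ?_⟩
      rw [mem_cut_single]
      have hne : v ≠ m v := (hadj v).ne
      have hend := hgend v
      rw [Sym2.eq_iff] at hend
      rcases hend with ⟨h1, h2⟩ | ⟨h1, h2⟩
      · rw [h1, h2]
        intro h
        exact hne (h.1 rfl).symm
      · rw [h1, h2]
        intro h
        exact hne (h.2 rfl).symm

end Pool.Agent.MP_1dc4d0_coE
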